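import Pool.Agent.Helper49C.Main

/-!
# The Tate conjecture at every prime, if the monodromy group is connected at one prime

Let `M` be the direct sum of pure motives `M i` (of dimension `n i` and weight `w i`) over a number
field `K`, let `ρ ℓ` be the `ℓ`-adic realizations, for all prime numbers `ℓ`, and let `𝔤` be the Lie
algebra of the motivic Galois group of `M` over the algebraic closure of `K` (in the Betti realization;
for motivated cycles, or for algebraic cycles if these generate a semisimple category with the
tensor powers of `M`). The structure `Realizations` states the properties which are used: good reduction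
outside of a finite set of places, with Frobenius polynomials `P v i` in `ℚ[X]` which are pure and
independent of `ℓ`; `𝔤` is reductive, determined by the tensors which it kills, and the tensors killed
by `𝔤 ⊗ ℚ_ℓ` are Tate tensors.

Suppose that the Frobenius tori have maximal rank at some places above two prime numbers `p₁`, `p₂`:
there are `r` multiplicatively independent Frobenius eigenvalues of `M`, where `r` is (an upper bound
of) the rank of `𝔤` (`MaximalRankAt`; this is necessary for the Mumford-Tate conjecture). Suppose that
at ONE prime number `ℓ₀` the algebraic monodromy group (the Zariski closure of the image of the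
Galois group of `K`) is connected. No irreducibility and no information on endomorphisms is
assumed.

**Theorem.** For EVERY prime number `ℓ`:

(1) the `ℓ`-adic realization of `M` is semisimple over all finite extensions of `K`;

(2) all Tate tensors of `M` at `ℓ` (the tensors on the `ℓ`-adic realization and its dual space which are
fixed by a subgroup of finite index) are motivated if and only if this is so for the endomorphisms
of the `ℓ`-adic realization of `M` as a representation of the Galois group of `K` ITSELF. So the Tate
conjecture at `ℓ` for the endomorphisms of `M` over `K` implies the Tate conjecture at `ℓ` for all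
homomorphisms between motives in the tensor category generated by `M`, over all finite extensions
of `K`;

(3) the Lie algebra of the endomorphisms which kill all Tate tensors at `ℓ` is a reductive subalgebra
of `𝔤 ⊗ ℚ_ℓ` of the same rank `r`, and its center acts by scalars on each of the `M i`;

(4) if `𝔤` is of type A (all simple factors of `𝔤 ⊗ ℂ` are isomorphic to some `𝔰𝔩_N`), all Tate tensors
of `M` at `ℓ` are motivated: the Tate conjecture holds at `ℓ` for all homomorphisms between motives in
the tensor category generated by `M`, over all finite extensions of `K`.

The monodromy group at `ℓ₀` is connected after a finite extension of the base field, so (4) settles,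
for motives with two primes of maximal Frobenius rank over such an extension, the case of type A.
(The hand-in `TypeAOverRationals` treats `K = ℚ` without connectedness, with maximal rank at more than
half of the primes; there (3) was obtained from the density, here it is obtained from the
connectedness at `ℓ₀`, and the argument works over all number fields and needs only two primes.)

## The proof

(a) Let `Z` be a homomorphism `V i' → V i` at `ℓ` which commutes with a normal open subgroup `N`, but
not with `σ`. The conjugation with `σ` has finite order `M` on the span of the conjugates of `Z`, and so
`D = σ Z σ⁻¹ - Z` satisfies `∑ g ^ k D g ^ (M - 1 - k) = 0` for all `g` in the coset `σ N`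
(`Conn`, `exists_relation`): there are eigenvalues `z` of `g` on `V i` and `z'` on `V i'` with
`∑ z ^ k z' ^ (M - 1 - k) = 0`. For Frobenius elements this is a property of the Frobenius polynomials,
and a determinant (`Kron`) is a polynomial in the entries of the matrices which detects it. By
Chebotarev's theorem this determinant vanishes at `ℓ₀` on `σ N`. As the monodromy group at `ℓ₀` is
connected, it vanishes on the whole Galois group, but it is not zero at the identity. So all
homomorphisms over finite extensions at `ℓ` commute with the Galois group of `K` (`Fixed`).

(b) With the theorem about Frobenius tori of maximal rank (library `Pool.Agent.N203.RE`), this gives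
(1) and (2). Let `L` be the Lie algebra of the endomorphisms which kill the Tate tensors at `ℓ`, and
let `X` be in the center of `L`. Then `X` commutes with an open subgroup, so by (a) with the Galois
group of `K`, which acts on the eigenspaces of `X` on `V i`. The determinants are `ℓ`-adic characters of
the Galois group of `K` with algebraic values at the Frobenius elements. By the transfer to `ℚ` and the
`ℓ`-adic six exponentials theorem (library `Pool.Agent.Y115`) the product of their values at the places
above `p` is, up to a root of unity, a power of `p`. The places above `p` are independent, and
`a ^ 2 / (q v) ^ w` is the quotient of the eigenvalue `a` and its complex conjugate, so the determinant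
at `v` is, up to a root of unity, given by the weight (`Psi2`). Since `X` is in the Lie algebra of the
Frobenius torus at `v`, this determines the eigenvalues of `X`: they are equal on `V i` (`Eig`). This
gives (3).

(c) A subalgebra of an algebra of type A which has the same rank and the same center, and a
nondegenerate trace form, is everything (library `Pool.Agent.Helper49B`). This gives (4).
-/

set_option autoImplicit false

namespace Pool.Agent.Results.MP_3703a7_ag.ConnectedAtOnePrime

open NumberField IsDedekindDomain Module Pool.Agent.Y114.RM Pool.Agent.Y114.GF Pool.Agent.Y114.TF
  Pool.Agent.R931.IR Pool.Agent.N203.RE Pool.Agent.Helper49C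
open Pool.Agent.Helper49B (CenterTheorem TypeA)

theorem result {K : Type} [Field K] [NumberField K] {ι : Type} [Fintype ι] [DecidableEq ι]
    {n : ι → ℕ}
    -- the realizations of the `M i`, and the Lie algebra of the motivic Galois group, of rank `≤ r`
    (w : ι → ℤ) (S : Set (HeightOneSpectrum (𝓞 K)))
    (P : HeightOneSpectrum (𝓞 K) → ι → Polynomial ℚ)
    (ρ : ∀ (ℓ : ℕ) [Fact ℓ.Prime], Reps Gal(AlgebraicClosure K/K) n ℓ)
    (𝔤 : Submodule ℚ (End ℚ (Betti n)))
    (h : Realizations (MonoidHom.id Gal(AlgebraicClosure K/K)) w S P ρ 𝔤)
    (r : ℕ) (hr : RatRankLE 𝔤 r)
    -- two prime numbers with Frobenius tori of maximal rank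
    (p₁ p₂ : ℕ) (hp : p₁ ≠ p₂) (hp₁ : MaximalRankAt S P r p₁) (hp₂ : MaximalRankAt S P r p₂)
    -- one prime number at which the monodromy group is connected
    (ℓ₀ : ℕ) [Fact ℓ₀.Prime] (hconn : ZariskiConnected (ρ ℓ₀)) :
    -- every prime number
    ∀ (ℓ : ℕ) [Fact ℓ.Prime], Semisimple (ρ ℓ) ∧
      (TateMotivated (ρ ℓ) 𝔤 ↔ EndosOverBase (ρ ℓ) 𝔤) ∧ CenterTheorem (ρ ℓ) 𝔤 r ∧
      (TypeA 𝔤 → TateMotivated (ρ ℓ) 𝔤) := by
  intro ℓ hℓ
  exact Pool.Agent.Helper49C.main P S ρ h r hr hp hp₁ hp₂ ℓ₀ hconn ℓ

end Pool.Agent.Results.MP_3703a7_ag.ConnectedAtOnePrime
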