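import Pool.Agent.Helper43x.NF.Main

/-!
# When does one Frobenius element imply the Tate conjecture for all motives generated by an abelian variety?

Let `A` be an abelian variety over a number field with good reduction at ONE place `v`, with residue field
of `p ^ a` elements, whose reduction `A_v` is isogenous to a product of simple abelian varieties with
Frobenius elements `π i` in CM fields `K i`. Suppose that the family `π` is separated: the factors of `A_v`
stay simple, with endomorphism fields `K i`, and not isogenous, over an algebraic closure. (If `A_v` is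
isogenous to such a product, the characteristic polynomial of the Frobenius element is the product of the
minimal polynomials of the `π i`.) There is no condition on `A` besides this.

Theorem. (A) The Frobenius element at `v` alone implies that all homomorphisms between the `ℓ`-adic
realizations of the pure motives `h_1(A) ^ {⊗ s} (c)`, over all finite extensions of the number field, for
all `ℓ`, are combinations of products of Tate classes of degree two (and then the Tate conjecture holds for
all pure motives in the tensor category generated by `h_1(A)`, by the theorem of Faltings) if and only if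
all Tate classes on the powers of the reduction `A_v` are generated by classes of divisors.

(B) This is the case for all separated families of Weil numbers in the `K i`, without any condition on the
slopes, if and only if it is the case for one pair `p`, `ℓ` of primes that split completely in the `K i`, and
if and only if: for all `i` the stable spaces of odd functions on the set of the embeddings of `K i` in the
algebraic numbers are zero, or the space of all odd functions, or that of the odd functions invariant under an
automorphism of `K i` other than the identity and the complex conjugation; and for `i ≠ j`, and all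
embeddings `σ` of `K i` and `τ` of `K j`, some automorphism of the field of algebraic numbers is the complex
conjugation on `σ (K i)` and the identity on `τ (K j)`.

In the Lean statement `V` is the rational Tate module, the `ℓ`-adic realization of `h_1(A)`, with the action
`ρ` of the Galois group, semisimple over all finite extensions (Faltings), `ω` is the Weil pairing of a
polarization, `χ` is the cyclotomic character and `γ` the Frobenius element at `v`.
-/

set_option autoImplicit false

namespace Pool.Agent.Results.MP_3703a7_ag.OneFrobeniusExact

open NumberField NumberField.IsCMField Pool.Agent.H204R3.GP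

section families

variable {I : Type} {K : I → Type} [∀ i, Field (K i)]

/-- The `π i` are Weil numbers of weight one for `p ^ a`: algebraic integers all of whose complex
absolute values are `p ^ (a / 2)`. -/
def IsWeilFamily (p a : ℕ) (π : ∀ i, K i) : Prop :=
  ∀ i, IsIntegral ℤ (π i) ∧ ∀ φ : K i →+* ℂ, ‖φ (π i)‖ ^ 2 = (p : ℝ) ^ a

/-- For all positive `n` the complex conjugates of the `n`-th powers of all the `π i` are different:
the powers of `π i` generate `K i`, and they are not conjugate to those of `π j` for `j ≠ i`. -/
def IsSeparated (π : ∀ i, K i) : Prop :=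
  ∀ n : ℕ, 0 < n → Function.Injective fun x : Σ i, K i →+* ℂ => x.2 (π x.1) ^ n

/-- **One Frobenius element suffices.** For all finite dimensional representations `ρ` over `ℚ_ℓ` of a group,
semisimple on all subgroups of finite index, with a nondegenerate alternating form `ω` that is multiplied by
the values of a character `χ`: if one element `γ` of the group with `χ γ = p ^ a` has the product of the
minimal polynomials of the `π i` as its characteristic polynomial, then all homomorphisms
`V ^ {⊗ s} (c) → V ^ {⊗ t} (d)` that commute with a subgroup of finite index are generated by Tate classes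
of degree two. -/
def OneFrobeniusSuffices (ℓ : ℕ) [Fact ℓ.Prime] (p a : ℕ) [Fintype I] [∀ i, NumberField (K i)]
    (π : ∀ i, K i) : Prop :=
  ∀ {V : Type} [AddCommGroup V] [Module ℚ_[ℓ] V] [FiniteDimensional ℚ_[ℓ] V]
    {Γ : Type} [Group Γ] (ρ : Representation ℚ_[ℓ] Γ V) (χ : Γ →* ℚ_[ℓ])
    (ω : V →ₗ[ℚ_[ℓ]] V →ₗ[ℚ_[ℓ]] ℚ_[ℓ]), (∀ v, ω v v = 0) → (∀ u, (∀ v, ω v u = 0) → u = 0) →
    (∀ s u v, ω (ρ s u) (ρ s v) = χ s * ω u v) → FiniteIndexSemisimple ρ →
    ∀ γ : Γ, χ γ = (p : ℚ_[ℓ]) ^ a →
    (ρ γ).charpoly = ∏ i, (minpoly ℚ (π i)).map (algebraMap ℚ ℚ_[ℓ]) →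
    HomsGeneratedInDegreeTwo ρ χ ω

variable {Ω V : Type} [Field Ω] [AddCommGroup V] [Module Ω V]

/-- The classes in `⋀ ^ (2 m) V` that are multiplied by `(q ^ m) ^ s` by `F ^ s`. -/
def tateClasses (F : V →ₗ[Ω] V) (q : ℕ) (m s : ℕ) : Set (ExteriorAlgebra Ω V) :=
  {x | x ∈ ⋀[Ω]^(2 * m) V ∧ ExteriorAlgebra.map (F ^ s) x = ((q : Ω) ^ m) ^ s • x}

/-- `V` is spanned by eigenvectors of `F` whose eigenvalues are images in `Ω` of the `π i`. -/
def HasEigenvalues (π : ∀ i, K i) (F : V →ₗ[Ω] V) : Prop :=
  Submodule.span Ω {v : V | ∃ i, ∃ σ : K i →+* Ω, F v = σ (π i) • v} = ⊤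

/-- All Tate classes on the powers of the reduction are generated by classes of divisors: all Tate
classes, over all finite extensions, in the even exterior powers of Frobenius modules with eigenvalues
conjugate to the `π i` are polynomials in the Tate classes of degree two. -/
def ReductionGenerated (π : ∀ i, K i) (q : ℕ) : Prop :=
  ∀ {Ω V : Type} [Field Ω] [IsAlgClosed Ω] [CharZero Ω] [AddCommGroup V] [Module Ω V]
    (F : V →ₗ[Ω] V), HasEigenvalues π F → ∀ m s : ℕ, 0 < s →
      ∀ x ∈ tateClasses F q m s, x ∈ Algebra.adjoin Ω (tateClasses F q 1 1)

variable (K)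

/-- All embeddings of the `K i` in the algebraic closure of the field of `p`-adic numbers have values in
the latter field. -/
def SplitsCompletely (p : ℕ) [Fact p.Prime] : Prop :=
  ∀ i, ∀ y : K i →+* PadicAlgCl p, ∃ x : K i →+* ℚ_[p],
    y = (algebraMap ℚ_[p] (PadicAlgCl p)).comp x

/-- One Frobenius element suffices for all separated families of Weil numbers for powers of `p`. -/
def AlwaysSuffices (ℓ : ℕ) [Fact ℓ.Prime] (p : ℕ) [Fintype I] [∀ i, NumberField (K i)] : Prop :=
  ∀ a : ℕ, 0 < a → ∀ π : ∀ i, K i, IsWeilFamily p a π → IsSeparated π → OneFrobeniusSuffices ℓ p a π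

end families

section fields

/-- The field of algebraic numbers. -/
abbrev QBar : Type := AlgebraicClosure ℚ

variable (K : Type) [Field K] [NumberField K] [IsCMField K]

variable {K} in
/-- The embedding that is conjugate to `σ`. -/
noncomputable def conj (σ : K →+* QBar) : K →+* QBar :=
  σ.comp (complexConj K : K →+* K)

variable {K} in
/-- The function `f` on the embeddings changes the sign under complex conjugation. -/
def IsOdd (f : (K →+* QBar) → ℚ) : Prop := ∀ σ, f (conj σ) = - f σ

variable {K} in
/-- A space of functions on the embeddings is stable under the Galois group. -/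
def IsStable (W : Submodule ℚ ((K →+* QBar) → ℚ)) : Prop :=
  ∀ g : QBar ≃+* QBar, ∀ f ∈ W, (fun σ => f ((g : QBar →+* QBar).comp σ)) ∈ W

variable {K} in
/-- The space `W` consists of the odd functions that are invariant under the automorphism `s` of `K`. -/
def IsSpaceOf (s : K ≃+* K) (W : Submodule ℚ ((K →+* QBar) → ℚ)) : Prop :=
  ∀ f, f ∈ W ↔ IsOdd f ∧ ∀ σ, f (σ.comp (s : K →+* K)) = f σ

/-- Every stable space of odd functions is zero, or contains all odd functions, or consists of the odd
functions that are invariant under an automorphism of `K` which is neither the identity nor the complex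
conjugation. -/
def IsSmall : Prop :=
  ∀ W : Submodule ℚ ((K →+* QBar) → ℚ), (∀ f ∈ W, IsOdd f) → IsStable W →
    W = ⊥ ∨ (∀ f, IsOdd f → f ∈ W) ∨
      ∃ s : K ≃+* K, s ≠ RingEquiv.refl K ∧ (s : K →+* K) ≠ (complexConj K : K →+* K) ∧
        IsSpaceOf s W

/-- For all embeddings `σ` of `K` and `τ` of `K'` there is an automorphism of the field of algebraic
numbers that is the complex conjugation on `σ (K)` and the identity on `τ (K')`. -/
def AreIndependent (K' : Type) [Field K'] : Prop :=
  ∀ (σ : K →+* QBar) (τ : K' →+* QBar), ∃ g : QBar ≃+* QBar,
    (g : QBar →+* QBar).comp σ = conj σ ∧ (g : QBar →+* QBar).comp τ = τ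

end fields

section proof

open Pool.Agent.Helper43x

theorem generated_iff {I : Type} {K : I → Type} [∀ i, Field (K i)] (π : ∀ i, K i) (q : ℕ) :
    ReductionGenerated π q ↔ ZO.Generated π q := by
  have h2 : ∀ {Ω V : Type} [Field Ω] [AddCommGroup V] [Module Ω V] (F : V →ₗ[Ω] V),
      tateClasses F q 1 1 = {y : ExteriorAlgebra Ω V |
        y ∈ ⋀[Ω]^2 V ∧ ExteriorAlgebra.map F y = (q : Ω) • y} := by
    intro Ω V _ _ _ F
    ext y
    simp only [tateClasses, mul_one, pow_one]
  constructor
  · intro h Ω V _ _ _ _ _ F hF m s hs x hx hFx
    rw [← h2]
    exact h F hF m s hs x ⟨hx, hFx⟩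
  · intro h Ω V _ _ _ _ _ F hF m s hs x hx
    rw [h2]
    exact h F hF m s hs x hx.1 hx.2

theorem suffices_iff {ℓ : ℕ} [Fact ℓ.Prime] {p a : ℕ} {I : Type} [Fintype I] {K : I → Type}
    [∀ i, Field (K i)] [∀ i, NumberField (K i)] (π : ∀ i, K i) :
    OneFrobeniusSuffices ℓ p a π ↔ NF.Suffices ℓ p a π :=
  ⟨fun h => h, fun h => h⟩

end proof

/-- **One Frobenius element and the Tate conjecture for all motives generated by an abelian variety.**
(A) Let `π i ∈ K i` be a separated family of Weil numbers for `p ^ a`. One Frobenius element suffices for
all `ℓ` if and only if it suffices for one `ℓ` that splits completely in the `K i`, and if and only if the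
Tate classes on the powers of the reduction are generated in degree two. (B) One Frobenius element suffices
for all separated families of Weil numbers in the `K i`, for all `p` and `ℓ`, if and only if this is so
for one pair of primes that split completely in the `K i`, and if and only if all `K i` are small and any two
of them are independent. -/
theorem result {I : Type} [Fintype I] (K : I → Type) [∀ i, Field (K i)] [∀ i, NumberField (K i)]
    [∀ i, IsCMField (K i)] :
    (∀ (p : ℕ) [Fact p.Prime] (a : ℕ), 0 < a → ∀ π : ∀ i, K i, IsWeilFamily p a π → IsSeparated π →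
      List.TFAE [∀ (ℓ : ℕ) [Fact ℓ.Prime], OneFrobeniusSuffices ℓ p a π,
        ∃ (ℓ : ℕ) (_ : Fact ℓ.Prime), SplitsCompletely K ℓ ∧ OneFrobeniusSuffices ℓ p a π,
        ReductionGenerated π (p ^ a)]) ∧
    List.TFAE [∀ (ℓ p : ℕ) [Fact ℓ.Prime] [Fact p.Prime], AlwaysSuffices K ℓ p,
      ∃ (ℓ p : ℕ) (_ : Fact ℓ.Prime) (_ : Fact p.Prime), SplitsCompletely K ℓ ∧ SplitsCompletely K p ∧
        AlwaysSuffices K ℓ p,
      (∀ i, IsSmall (K i)) ∧ ∀ i j, i ≠ j → AreIndependent (K i) (K j)] := by
  constructor
  · intro p _ a ha π hπ hsep
    have h := Helper43x.NF.pointwise ha hπ hsep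
    have h2 : ReductionGenerated π (p ^ a) ↔ Helper43x.ZO.Generated π (p ^ a) := generated_iff _ _
    tfae_have 1 ↔ 2 := h.out 0 1
    tfae_have 1 ↔ 3 := (h.out 0 2).trans h2.symm
    tfae_finish
  · exact Helper43x.NF.fields K

end Pool.Agent.Results.MP_3703a7_ag.OneFrobeniusExact
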