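import Pool.Agent.Helper49A.Conv

/-!
# The Tate conjecture at every prime from one prime, for motives which are irreducible over the base

Let `M` be the direct sum of pure motives `M i` (of dimension `n i` and weight `w i`) over the number
field `K`, let `ρ ℓ` be the `ℓ`-adic realizations, for all prime numbers `ℓ`, and let `𝔤` be the Lie
algebra of the motivic Galois group of `M` over the algebraic closure of `K` (in the Betti realization;
for motivated cycles, or for algebraic cycles if these generate a semisimple category with the
tensor powers of `M`). The structure `Realizations` states the properties which are used: good reduction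
outside of a finite set of places, with Frobenius polynomials `P v i` in `ℚ[X]` which are pure and
independent of `ℓ`; `𝔤` is reductive, determined by the tensors which it kills, and the tensors killed
by `𝔤 ⊗ ℚ_ℓ` are Tate tensors.

Suppose that the Frobenius tori have maximal rank at some places above two prime numbers `p₁`, `p₂`:
there are `r` multiplicatively independent Frobenius eigenvalues of `M`, where `r` is (an upper bound
of) the rank of `𝔤` (`MaximalRankAt`; this is necessary for the Mumford-Tate conjecture). Suppose that
at ONE prime number `ℓ₀` the endomorphisms of the `ℓ₀`-adic realization of `M` which commute with a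
subgroup of finite index of the Galois group are the obvious ones: they act by a scalar on each of
the `M i` (this is the Tate conjecture for the endomorphisms of `M` over all finite extensions of
`K`, at the prime `ℓ₀`, if the `M i` are absolutely simple and not isomorphic).

**Theorem.** For EVERY prime number `ℓ` the `ℓ`-adic realization of `M` is semisimple over all finite
extensions of `K`, and the following are equivalent:

* all Tate tensors of `M` at `ℓ` (the tensors on the `ℓ`-adic realization and its dual space which are
  fixed by a subgroup of finite index) are motivated: they are the tensors killed by `𝔤 ⊗ ℚ_ℓ`;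
* for every `i`, the only endomorphisms of the `ℓ`-adic realization of `M i` as a representation of the
  Galois group of `K` itself are the scalars.

So the Tate conjecture at `ℓ` for all homomorphisms between motives in the tensor category generated by
`M`, over all finite extensions of `K`, is reduced to the statement that the `M i` stay absolutely
irreducible over `K` at `ℓ`; there is no condition any more over the extensions of `K`, and no condition
which relates different `M i`. (The theorem `RankAndEndomorphisms`, library `Pool.Agent.N203.RE`, reduces
the Tate tensors to the endomorphisms over all finite extensions, at the same prime `ℓ`.)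

## The proof

(1) At `ℓ₀` the Lie algebra of the endomorphisms which kill the Tate tensors acts irreducibly on each
`V i`, and contains the Lie algebra of the Frobenius torus, which is its own centralizer. Order
the eigenvalues of a generic element `d` of the torus, with rational eigenvalues. The largest one has
multiplicity one on `V i`: if `v` is an eigenvector, the subspace generated from `v` by the lowering
operators is stable under the Lie algebra, and its part of the largest weight is spanned by `v`. So
the Frobenius polynomial has a simple root `a` which is isolated: no other root is the product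
of `a` and a root of unity (`Extr`, `Iso`, `Iso2`).

(2) At `ℓ`, let `A` be the algebra of the endomorphisms of `V i` which commute with a subgroup of finite
index. By (1) it acts on the eigenline of `a` by a character, whose conjugates under the Galois
group give a decomposition of `V i` (over the algebraic closure), as `V i` is absolutely irreducible over
`K`. If there is more than one conjugate, by Jordan's lemma there is an element `g` of the Galois
group without fixed points on the set of the conjugates, and the trace on `V i` is zero on the coset
`g H` of an open subgroup (`Jordan`, `Chi`, `Dich`). By Chebotarev's theorem the same is true at `ℓ₀`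
(`Trans`). But at `ℓ₀` the operators of `H` span all endomorphisms of `V i` (`Dens`), a contradiction.
So `A` consists of scalars. Similarly the `V i` are not isomorphic over finite extensions at `ℓ`, since
their traces are different on all open subgroups at `ℓ₀` (`Endo`, `Endo2`).

(3) So the endomorphisms over finite extensions at `ℓ` are motivated, and the theorem about
maximal rank and endomorphisms gives the Tate tensors. The converse: the commutant of `𝔤` over `ℚ`
consists of block scalars, because it is so over `ℚ_ℓ₀` (`Conv`).
-/

set_option autoImplicit false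

namespace Pool.Agent.Results.MP_3703a7_ag.OnePrimeToAllPrimes

open NumberField IsDedekindDomain Module Pool.Agent.Y114.RM Pool.Agent.Y114.GF Pool.Agent.Y114.TF
  Pool.Agent.R931.IR Pool.Agent.N203.RE Pool.Agent.Helper49A

theorem result {K : Type} [Field K] [NumberField K] {ι : Type} [Fintype ι] [DecidableEq ι]
    {n : ι → ℕ}
    -- the realizations of the `M i`, and the Lie algebra of the motivic Galois group, of rank `≤ r`
    (w : ι → ℤ) (S : Set (HeightOneSpectrum (𝓞 K)))
    (P : HeightOneSpectrum (𝓞 K) → ι → Polynomial ℚ)
    (ρ : ∀ (ℓ : ℕ) [Fact ℓ.Prime], Reps Gal(AlgebraicClosure K/K) n ℓ)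
    (𝔤 : Submodule ℚ (End ℚ (Betti n)))
    (h : Realizations (MonoidHom.id Gal(AlgebraicClosure K/K)) w S P ρ 𝔤)
    (r : ℕ) (hr : RatRankLE 𝔤 r)
    -- two prime numbers with Frobenius tori of maximal rank
    (p₁ p₂ : ℕ) (hp : p₁ ≠ p₂) (hp₁ : MaximalRankAt S P r p₁) (hp₂ : MaximalRankAt S P r p₂)
    -- one prime number at which there are only the obvious endomorphisms over finite extensions
    (ℓ₀ : ℕ) [Fact ℓ₀.Prime] (hℓ₁ : ℓ₀ ≠ p₁) (hℓ₂ : ℓ₀ ≠ p₂) (h₀ : OnlyBlockScalars (ρ ℓ₀)) :
    -- every prime number
    ∀ (ℓ : ℕ) [Fact ℓ.Prime], Semisimple (ρ ℓ) ∧
      (TateMotivated (ρ ℓ) 𝔤 ↔ ∀ i, OnlyScalars (ρ ℓ i)) := by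
  intro ℓ hℓ
  obtain ⟨p, hpℓ, hpℓ₀, hmax⟩ : ∃ p, ℓ ≠ p ∧ ℓ₀ ≠ p ∧ MaximalRankAt S P r p := by
    by_cases h1 : ℓ = p₁
    · exact ⟨p₂, fun h2 => hp (h1.symm.trans h2), hℓ₂, hp₂⟩
    · exact ⟨p₁, h1, hℓ₁, hp₁⟩
  have hR : RankTheorem (ρ ℓ) 𝔤 r := main_place h r hr p hmax ℓ hpℓ
  have hR₀ : RankTheorem (ρ ℓ₀) 𝔤 r := main_place h r hr p hmax ℓ₀ hpℓ₀
  refine ⟨hR.semisimple, fun hT i => ?_, fun hirr => ?_⟩
  · have h1 : OnlyBlockScalars (ρ ℓ) := fun Y hY =>
      blocks_of_rat ℓ (rat_commutant ℓ₀ (ρ ℓ₀) (h.motivic ℓ₀) h₀) Y (hR.tate.1 hT Y hY)
    exact onlyScalars_of_blockScalars (ρ ℓ) h1 i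
  · obtain ⟨hpp, -, hpS, -, v₀, hv₀, hind⟩ := hmax
    obtain ⟨𝔥₀, hk₀, hred₀⟩ := hR₀.rank
    have hab : ∀ q : ℕ, q.Prime → q ≠ p → ¬ Above v₀ q := fun q hq hne hv =>
      hne (Pool.Agent.R931.GD.above_inj hq hpp hv hv₀)
    have h1 : OnlyBlockScalars (ρ ℓ) := core (w := w) (ρ ℓ) (h.continuous ℓ) (ρ ℓ₀)
      (h.continuous ℓ₀) S h.finite P (h.good ℓ) (h.good ℓ₀) hR.semisimple hR₀.semisimple
      (scalars ℓ₀ 𝔤) 𝔥₀ (h.motivic ℓ₀) (rank_scalars ℓ₀ hr) hk₀ hred₀ h₀ v₀ (hpS v₀ hv₀)
      (hab ℓ hℓ.out hpℓ) (hab ℓ₀ Fact.out hpℓ₀) hind hirr
    exact hR.tate.2 (endos_of_blockScalars (ρ ℓ) (scalars ℓ 𝔤) (IsMotivic.parts (h.motivic ℓ)) h1)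

end Pool.Agent.Results.MP_3703a7_ag.OnePrimeToAllPrimes
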