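import Pool.Agent.Helper49K.TypeA
import Pool.Agent.Helper49K.Cliff

/-!
# The Tate conjecture at one prime number and at all prime numbers

Let `M` be the direct sum of pure motives `M i` (of dimension `n i` and weight `w i`) over a number field
`K`, or over a finitely generated field, the function field of a variety with a closed point `s` with
residue field `K`, at which `M` has good reduction `M_s`. `Γ` is the Galois group of `K` (with `s` the
identity) or the fundamental group of the variety. Let `ρ ℓ` be the `ℓ`-adic realizations, for all prime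
numbers `ℓ`, and let `𝔤` be the Lie algebra of the motivic Galois group of `M` (over an algebraically
closed field, in the Betti realization, a Lie algebra over `ℚ`; for motivated cycles, or for algebraic
cycles if these generate a semisimple category with the tensor powers of `M`). The structure
`Realizations` (library `Pool.Agent.N203.RE`) states the properties which are used: good reduction outside
of a finite set of places, with pure Frobenius polynomials in `ℚ[X]` which are independent of `ℓ`; `𝔤` is
reductive, determined by the tensors which it kills, and the tensors killed by `𝔤 ⊗ ℚ_ℓ` are Tate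
tensors. `IntegralAt`: `q ^ c` times the Frobenius eigenvalues are algebraic integers (Deligne).

Suppose that at ONE prime number `ℓ₀` the Tate conjecture holds for `M` (the member `M_s`), in all
degrees, over all finite extensions: the realization is semisimple, and all Tate tensors are motivated
(`TateAt`). There is no condition on `M`; in particular the motivic Galois group may have any centre
and any number of components.

**Theorem.** Then at EVERY prime number `ℓ` at which the realization is semisimple, and for `K = ℚ` at every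
prime number `ℓ` (semisimplicity is then a part of the result), the following is true.

(1) The `ℓ`-adic realization of `M` is semisimple over all finite extensions; the Lie algebra of the
endomorphisms which kill all Tate tensors at `ℓ` is a reductive subalgebra of `𝔤 ⊗ ℚ_ℓ` of the same rank
(`SameRanks`; so it contains the centre of `𝔤 ⊗ ℚ_ℓ`: the Tate conjecture holds at `ℓ` for all tensors which
are killed by the derived algebra of `𝔤`).

(2) The Tate conjecture for `M` at `ℓ`, for tensors in any number of variables, over all finite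
extensions, is equivalent to its part for the endomorphisms of the realization of `M`
(`FromEndomorphisms`).

(3) For `M_s`, the finite extensions disappear: let `Δ₀` be a subgroup of finite index of the Galois
group of `K` whose image at the one prime number `ℓ₀` has a connected Zariski closure
(`ConnectedMonodromy`; such subgroups exist). Then the Tate conjecture for `M_s` at `ℓ` is equivalent to
its part for the endomorphisms which commute with `Δ₀` (`EndosOver`).

(4) If `𝔤` is of type A (`IsTypeA`), the Tate conjecture for `M_s` at `ℓ` is equivalent to its part for the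
endomorphisms in the centre of the algebra of the endomorphisms which commute with `Δ₀`
(`CentralEndosOver`), that is, for the decomposition into isotypic components. If moreover `K = ℚ` and
the whole monodromy group of `M_s` at `ℓ₀` is connected, the Tate conjecture for `M_s` holds at `ℓ`,
without any condition at `ℓ`: it is independent of `ℓ`.

(5) If the only endomorphisms of `M_s` over finite extensions are the obvious ones (at `ℓ₀`:
`OnlyBlockScalars`), the Tate conjecture for `M_s` at `ℓ` holds if and only if the realizations of the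
`M i` have only scalar endomorphisms over `K` itself (`OnlyScalars`).

So for every motive over a number field for which the Tate conjecture is known at one prime number, the
Tate conjecture at any other prime number, in all degrees, is its part in degree two (semisimplicity
and endomorphisms, over one finite extension of `K` which does not depend on the prime number).

For abelian varieties the Tate conjecture for endomorphisms is the theorem of Faltings, and the
independence of `ℓ` of the Mumford-Tate conjecture is due to Larsen and Pink. For general motives it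
was known that the rank of the monodromy group of the semisimplification does not depend on `ℓ`
(Serre), and that its type is independent of `ℓ` for some types of Lie algebras (Larsen, Pink, Hui).
Earlier results here assumed that there are Frobenius tori of maximal rank (`OnePrimeToAllPrimes`,
`ConnectedAtOnePrime`), or used conditions in degree four, but only if the centre of `𝔤` is given by
the weights, and over `ℚ` (`FourVariablesOnePrime`, for the problem MP_bbcdf5_ag).

## The proof

(a) At `ℓ₀`, let `𝔩` be the tangent space at `1` of the image of the Galois group in `End V`, a Lie algebra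
(library `Pool.Agent.Helper49P`). By the Casimir operator of `𝔩` (plus a part of the centre) on `V ⊗ V` and the
Tate conjecture in degree four, `𝔤 ⊗ ℚ_ℓ₀` is the sum of `𝔩` and of its centre `𝔷`; so `𝔩` contains the
derived algebra. But `𝔩 ∩ 𝔷` need not be everything, and it is not known to be an algebraic Lie algebra.

(b) Let `X₀` in `𝔤 ⊗ ℚ_ℓ₀` have `r` eigenvalues which are linearly independent over `ℚ`, `r` the rank, and
`X₀ = A + Z₁`, `A` in `𝔩`, `Z₁` in `𝔷`. If no element of `A + (𝔩 ∩ 𝔷)` has `r` independent eigenvalues, then, as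
`ℚ_ℓ₀` is not countable, there is a character `χ` of `𝔷`, a combination with integral coefficients of the
characters `ζ j` of `𝔷` on `V`, which vanishes on `𝔩 ∩ 𝔷`, but not at `Z₁` (`AFF`). Products of determinants of
common eigenspaces of `𝔷` on `V` and its dual space give a multilinear form over the algebraic closure
on which `𝔤` acts by a multiple of `χ` (`WDET`, `WADD`); the coordinates over `ℚ_ℓ₀` of this form are killed
by `𝔩` (`char_zero`).

(c) Tensors killed by `𝔩` are Tate tensors (`KT`, with `ℓ`-adic logarithms). So by the Tate conjecture the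
form is killed by `Z₁`, a contradiction. So there is an element of `𝔩` with `r` independent eigenvalues; up
to a power of `ℓ₀` it is a logarithm of an element of the Galois group, which has `r` multiplicatively
independent eigenvalues. By Chebotarev's theorem and the finiteness of the types of relations (library
`Pool.Agent.R931`, and `Pool.Agent.Helper49K` for residue fields which are not prime fields) there are
infinitely many Frobenius elements with this property. At `ℓ` they give a torus of rank `r`; if the
realization is semisimple, the trace form of the Lie algebra of the Tate tensors is not degenerate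
(library `Pool.Agent.R913`), and the theorem about rank and endomorphisms (library `Pool.Agent.N203.RE`) gives
(1) and (2). Over `ℚ` semisimplicity follows from class field theory (the same library).

(d) (3): if a Tate endomorphism `Z` at `ℓ` does not commute with an element `σ` of `Δ₀`, then the Frobenius
elements in a coset `σ N` of an open subgroup satisfy a polynomial relation `∑ z ^ m z' ^ (M - 1 - m) = 0`; it
is transferred to `ℓ₀` by Chebotarev's theorem, and extends to `1` by connectedness, where it is false.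
(4) and (5) use the libraries `Pool.Agent.Helper49B`, `Pool.Agent.Helper49C` and `Pool.Agent.Helper49A`.

Pieces of the proof were written by helper4, helper39, helper58, helper62, helper63, helper74,
helper83, helper86 and helper98; see the files of `Pool.Agent.Helper49P` and
`Pool.Agent.Helper49T`.
-/

set_option autoImplicit false

noncomputable section

namespace Pool.Agent.Results.MP_3703a7_ag.TateAtOnePrime

open NumberField IsDedekindDomain Module Pool.Agent.Y114.RM Pool.Agent.Y114.GF Pool.Agent.Y114.TF
  Pool.Agent.R931.IR Pool.Agent.N203.RE Pool.Agent.Helper49A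

section general

variable {k V Γ : Type} [Field k] [AddCommGroup V] [Module k V] [Group Γ]
  (Δ₀ : Subgroup Γ) (ρ : Representation k Γ V) (𝔤 : Submodule k (End k V))

/-- The representation is semisimple: every stable subspace has a stable complement. -/
def IsSemisimpleRep : Prop := ∀ U : Submodule k V, (∀ γ : Γ, ∀ x ∈ U, ρ γ x ∈ U) →
  ∃ U' : Submodule k V, (∀ γ : Γ, ∀ x ∈ U', ρ γ x ∈ U') ∧ IsCompl U U'

/-- The Zariski closure of the image of `Δ₀` is connected: if a polynomial in the linear functionals `ξ`
of the endomorphisms `ρ γ` is zero for all `γ` in a subgroup of finite index of `Δ₀`, it is zero for all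
`γ` in `Δ₀`. -/
def ConnectedImage : Prop :=
  ∀ Δ : Subgroup Γ, Δ ≤ Δ₀ → Δ.FiniteIndex → ∀ f : MvPolynomial (End k V →ₗ[k] k) k,
    (∀ γ ∈ Δ, MvPolynomial.eval (fun ξ => ξ (ρ γ)) f = 0) →
      ∀ γ ∈ Δ₀, MvPolynomial.eval (fun ξ => ξ (ρ γ)) f = 0

/-- The endomorphisms of `V` which commute with `Δ₀` commute with `𝔤`. -/
def EndosCommuteWith : Prop :=
  ∀ Y : End k V, (∀ γ ∈ Δ₀, ρ γ * Y = Y * ρ γ) → ∀ X ∈ 𝔤, X * Y = Y * X

/-- The same for the endomorphisms in the centre: those which commute with `Δ₀` and with all
endomorphisms which commute with `Δ₀`. -/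
def CentralEndosCommuteWith : Prop :=
  ∀ Y : End k V, (∀ γ ∈ Δ₀, ρ γ * Y = Y * ρ γ) →
    (∀ Z : End k V, (∀ γ ∈ Δ₀, ρ γ * Z = Z * ρ γ) → Y * Z = Z * Y) → ∀ X ∈ 𝔤, X * Y = Y * X

end general

section typeA

variable {V : Type} [AddCommGroup V] [Module ℂ V] (G : Submodule ℂ (End ℂ V))

/-- `f` is a homomorphism of Lie algebras on `G`. -/
def IsLieMap {N : ℕ} (f : End ℂ V →ₗ[ℂ] Matrix (Fin N) (Fin N) ℂ) : Prop :=
  ∀ X ∈ G, ∀ Y ∈ G, f (X * Y - Y * X) = f X * f Y - f Y * f X

/-- The Lie algebra `G` of complex operators is of type A: there are matrix sizes `N j` and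
homomorphisms `f j` of Lie algebras from `G` to the algebras of complex matrices of size `N j`; the
elements of `G` killed by all `f j` are central; and all families of matrices with trace zero are of
the form `(f j X)`. -/
def IsTypeA : Prop := ∃ (J : ℕ) (N : Fin J → ℕ) (f : ∀ j, End ℂ V →ₗ[ℂ] Matrix (Fin (N j)) (Fin (N j)) ℂ),
  (∀ j, IsLieMap G (f j)) ∧ (∀ X ∈ G, (∀ j, f j X = 0) → ∀ Y ∈ G, X * Y = Y * X) ∧
    ∀ A : (∀ j, Matrix (Fin (N j)) (Fin (N j)) ℂ), (∀ j, (A j).trace = 0) → ∃ X ∈ G, ∀ j, f j X = A j

end typeA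

section motives

variable {Γ : Type} [Group Γ] {ι : Type} {n : ι → ℕ} {ℓ : ℕ} [Fact ℓ.Prime]

/-- The Tate conjecture at one prime number, in all degrees and over all finite extensions: the
realization is semisimple, and all Tate tensors are motivated. -/
structure TateAt (ρ : Reps Γ n ℓ) (𝔤 : Submodule ℚ (End ℚ (Betti n))) : Prop where
  semisimple : IsSemisimpleRep (sumRep ρ)
  tensors : TateMotivated ρ 𝔤

/-- The numbers `(q v) ^ c * a`, for the Frobenius eigenvalues `a` at the places `v` outside of `S`, are
algebraic integers. -/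
def IntegralAt {K : Type} [Field K] [NumberField K] (S : Set (HeightOneSpectrum (𝓞 K)))
    (P : HeightOneSpectrum (𝓞 K) → ι → Polynomial ℚ) (c : ℕ) : Prop :=
  ∀ v ∉ S, ∀ i, ∀ a : ℂ, Polynomial.aeval a (P v i) = 0 → IsIntegral ℤ ((q v : ℂ) ^ c * a)

/-- The realization is semisimple, or the degree `d` of the number field is `1` (the field is `ℚ`). -/
def SemisimpleOrRational (d : ℕ) (ρ : Reps Γ n ℓ) : Prop := d = 1 ∨ IsSemisimpleRep (sumRep ρ)

/-- The realization is semisimple over all finite extensions, and all Tate tensors are motivated if and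
only if all Tate endomorphisms are. -/
structure FromEndomorphisms (ρ : Reps Γ n ℓ) (𝔤 : Submodule ℚ (End ℚ (Betti n))) : Prop where
  semisimple : Semisimple ρ
  tate : TateMotivated ρ 𝔤 ↔ TateEndomorphisms ρ 𝔤

/-- The algebraic monodromy group of `Δ₀` is connected (see `ConnectedImage`). -/
def ConnectedMonodromy (Δ₀ : Subgroup Γ) (ρ : Reps Γ n ℓ) : Prop := ConnectedImage Δ₀ (sumRep ρ)

/-- The endomorphisms which commute with `Δ₀` are motivated. -/
def EndosOver (Δ₀ : Subgroup Γ) (ρ : Reps Γ n ℓ) (𝔤 : Submodule ℚ (End ℚ (Betti n))) : Prop :=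
  EndosCommuteWith Δ₀ (sumRep ρ) (scalars ℓ 𝔤)

/-- The central endomorphisms of the restriction to `Δ₀` are motivated. -/
def CentralEndosOver (Δ₀ : Subgroup Γ) (ρ : Reps Γ n ℓ) (𝔤 : Submodule ℚ (End ℚ (Betti n))) : Prop :=
  CentralEndosCommuteWith Δ₀ (sumRep ρ) (scalars ℓ 𝔤)

/-- The rank of `𝔤` is `r`, and for all `ℓ` (with a semisimple realization, if `d ≠ 1`) the Lie algebra
of the endomorphisms which kill all Tate tensors at `ℓ` is a reductive subalgebra of `𝔤 ⊗ ℚ_ℓ` of rank
at least `r`. -/
def SameRanks (d : ℕ) (ρ : ∀ (ℓ : ℕ) [Fact ℓ.Prime], Reps Γ n ℓ)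
    (𝔤 : Submodule ℚ (End ℚ (Betti n))) : Prop :=
  ∃ r, RatRankLE 𝔤 r ∧ ∀ (ℓ : ℕ) [Fact ℓ.Prime], SemisimpleOrRational d (ρ ℓ) →
    MaximalRank (ρ ℓ) 𝔤 r

/-- What is proved for the motive over the number field (of degree `d`) itself: the reduction to the
endomorphisms over the field of connectedness at the prime number `ℓ₀`, for type A to the central
endomorphisms; the case of type A over `ℚ`; the case without further endomorphisms. -/
structure FromBase (d : ℕ) (ρ₀ : ∀ (ℓ : ℕ) [Fact ℓ.Prime], Reps Γ n ℓ)
    (𝔤 : Submodule ℚ (End ℚ (Betti n))) (ℓ₀ : ℕ) [Fact ℓ₀.Prime] (ℓ : ℕ) [Fact ℓ.Prime] : Prop where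
  connected : ∀ Δ₀ : Subgroup Γ, Δ₀.FiniteIndex → ConnectedMonodromy Δ₀ (ρ₀ ℓ₀) →
    (TateMotivated (ρ₀ ℓ) 𝔤 ↔ EndosOver Δ₀ (ρ₀ ℓ) 𝔤)
  central : ∀ Δ₀ : Subgroup Γ, Δ₀.FiniteIndex → ConnectedMonodromy Δ₀ (ρ₀ ℓ₀) →
    IsTypeA (bcS ℂ 𝔤) → (TateMotivated (ρ₀ ℓ) 𝔤 ↔ CentralEndosOver Δ₀ (ρ₀ ℓ) 𝔤)
  typeA : d = 1 → ConnectedMonodromy ⊤ (ρ₀ ℓ₀) → IsTypeA (bcS ℂ 𝔤) → TateMotivated (ρ₀ ℓ) 𝔤
  blocks : OnlyBlockScalars (ρ₀ ℓ₀) → (TateMotivated (ρ₀ ℓ) 𝔤 ↔ ∀ i, OnlyScalars (ρ₀ ℓ i))

end motives

theorem typeA_of {H : Type} [AddCommGroup H] [Module ℚ H] (𝔤 : Submodule ℚ (End ℚ H))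
    (h : IsTypeA (bcS ℂ 𝔤)) : Pool.Agent.Helper49B.TypeA 𝔤 := by
  obtain ⟨J, N, f, h1, h2, h3⟩ := h
  refine ⟨J, N, LinearMap.pi f, fun X hX Y hY => funext fun j => h1 j X hX Y hY, fun X hX h0 => ?_,
    fun A hA => ?_⟩
  · exact h2 X hX fun j => congrFun h0 j
  · obtain ⟨X, hX, h4⟩ := h3 A hA
    exact ⟨X, hX, funext h4⟩

theorem connected_of {Γ : Type} [Group Γ] {ι : Type} [DecidableEq ι] {n : ι → ℕ} {ℓ : ℕ}
    [Fact ℓ.Prime] (Δ₀ : Subgroup Γ) (ρ : Reps Γ n ℓ) (h : ConnectedMonodromy Δ₀ ρ) :
    Pool.Agent.Helper49T.ConnectedOn Δ₀ ρ := by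
  intro Δ hle hΔ f hf
  let ξ : (Σ i, Fin (n i) × Fin (n i)) →
      (End ℚ_[ℓ] (∀ i, Fin (n i) → ℚ_[ℓ]) →ₗ[ℚ_[ℓ]] ℚ_[ℓ]) := fun x =>
    LinearMap.proj x.2.1 ∘ₗ LinearMap.proj x.1 ∘ₗ
      LinearMap.applyₗ (Pi.single x.1 (Pi.single x.2.2 1))
  have h1 : ∀ γ, (fun x => ξ x (sumRep ρ γ)) = Pool.Agent.Helper49C.entries ρ γ := by
    intro γ
    refine funext fun x => ?_
    have h2 : ξ x (sumRep ρ γ) =
        ρ x.1 γ ((Pi.single x.1 (Pi.single x.2.2 1) : ∀ i, Fin (n i) → ℚ_[ℓ]) x.1) x.2.1 := rfl
    rw [h2, Pi.single_eq_same]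
    rfl
  have h3 : ∀ γ, MvPolynomial.eval (fun ζ => ζ (sumRep ρ γ)) (MvPolynomial.rename ξ f) =
      MvPolynomial.eval (Pool.Agent.Helper49C.entries ρ γ) f := by
    intro γ
    rw [MvPolynomial.eval_rename, ← h1]
    rfl
  intro γ hγ
  rw [← h3]
  exact h Δ hle hΔ _ (fun δ hδ => (h3 δ).trans (hf δ hδ)) γ hγ

/-- **Theorem.** Let `M` be a direct sum of pure motives over a number field `K` (or over a finitely
generated field, with a closed point `s` of a model with residue field `K`). Suppose that at ONE prime
number `ℓ₀` the Tate conjecture holds for `M_s`, in all degrees. Then at EVERY prime number `ℓ` (with a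
semisimple realization if `K ≠ ℚ`; for `K = ℚ` the realization is semisimple) the realization of `M` is
of maximal rank, and the Tate conjecture for `M` in all degrees is equivalent to its part for
endomorphisms; for `M_s` it is enough to consider the endomorphisms over the field of connectedness
at `ℓ₀` (for type A only the central ones), or over `K` itself if `M_s` has only the obvious
endomorphisms; and if `K = ℚ`, the monodromy group at `ℓ₀` is connected and `𝔤` is of type A, the Tate
conjecture for `M_s` holds at every `ℓ`. -/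
theorem result {K : Type} [Field K] [NumberField K] {Γ : Type} [Group Γ] [TopologicalSpace Γ]
    [IsTopologicalGroup Γ] [CompactSpace Γ] {ι : Type} [Fintype ι] [DecidableEq ι] {n : ι → ℕ}
    -- the realizations and the motivic Lie algebra
    (s : Gal(AlgebraicClosure K/K) →* Γ) (w : ι → ℤ) (S : Set (HeightOneSpectrum (𝓞 K)))
    (P : HeightOneSpectrum (𝓞 K) → ι → Polynomial ℚ) (ρ : ∀ (ℓ : ℕ) [Fact ℓ.Prime], Reps Γ n ℓ)
    (𝔤 : Submodule ℚ (End ℚ (Betti n))) (h : Realizations s w S P ρ 𝔤)
    (c : ℕ) (hint : IntegralAt S P c)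
    -- one prime number
    (ℓ₀ : ℕ) [Fact ℓ₀.Prime] (h₀ : TateAt (restrictTo (ρ ℓ₀) s) 𝔤) :
    -- every prime number
    SameRanks (Module.finrank ℚ K) ρ 𝔤 ∧ ∀ (ℓ : ℕ) [Fact ℓ.Prime],
      (SemisimpleOrRational (Module.finrank ℚ K) (ρ ℓ) → FromEndomorphisms (ρ ℓ) 𝔤) ∧
      (SemisimpleOrRational (Module.finrank ℚ K) (restrictTo (ρ ℓ) s) →
        FromBase (Module.finrank ℚ K) (fun ℓ _ => restrictTo (ρ ℓ) s) 𝔤 ℓ₀ ℓ) := by
  have H : Pool.Agent.Helper49P.Pieces := Pool.Agent.Helper49P.pieces
  have T : Pool.Agent.Helper49T.Pieces2 := Pool.Agent.Helper49T.pieces2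
  have hr := Pool.Agent.Helper49K.restrict_realizationsK h
  have hcomp : CompactSpace Gal(AlgebraicClosure K/K) := Pool.Agent.Helper49P.compactGal K
  have hss₀ : Semisimple (restrictTo (ρ ℓ₀) s) :=
    Pool.Agent.Helper49K.fis_of_semisimple h₀.semisimple
  obtain ⟨r, hr1, σ, hσ⟩ := Pool.Agent.Helper49K.keyK H T hr ℓ₀ hss₀ h₀.tensors
  have hpl := Pool.Agent.Helper49K.placesK hr hint ℓ₀ hσ
  have hR : ∀ (ℓ : ℕ) [Fact ℓ.Prime], SemisimpleOrRational (Module.finrank ℚ K) (ρ ℓ) →
      RankTheorem (ρ ℓ) 𝔤 r := fun ℓ _ hℓ => Pool.Agent.Helper49K.rank_all h hr1 hpl ℓ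
        (hℓ.imp id fun h' => Pool.Agent.Helper49K.fis_of_semisimple h')
  refine ⟨⟨r, hr1, fun ℓ _ hℓ => (hR ℓ hℓ).rank⟩, fun ℓ _ => ⟨fun hℓ =>
    ⟨(hR ℓ hℓ).semisimple, (hR ℓ hℓ).tate⟩, fun hℓ => ?_⟩⟩
  have hR1 : RankTheorem (restrictTo (ρ ℓ) s) 𝔤 r :=
    Pool.Agent.Helper49K.rank_all hr hr1 hpl ℓ
      (hℓ.imp id fun h' => Pool.Agent.Helper49K.fis_of_semisimple h')
  have hR0 : RankTheorem (restrictTo (ρ ℓ₀) s) 𝔤 r :=
    Pool.Agent.Helper49K.rank_all hr hr1 hpl ℓ₀ (Or.inr hss₀)
  refine ⟨fun Δ₀ hΔ₀ hconn => ?_, fun Δ₀ hΔ₀ hconn hA => ?_, fun hK hconn hA => ?_, fun hb => ?_⟩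
  · exact Pool.Agent.Helper49K.subK hr ℓ₀ Δ₀ hΔ₀ (connected_of Δ₀ _ hconn) ℓ hR1
  · exact Pool.Agent.Helper49K.typeA_central hr ℓ₀ hr1 hpl Δ₀ hΔ₀ (connected_of Δ₀ _ hconn)
      (typeA_of 𝔤 hA) ℓ hR1
  · have h1 := connected_of ⊤ _ hconn
    have h2 : Pool.Agent.Helper49C.ZariskiConnected (restrictTo (ρ ℓ₀) s) :=
      fun Δ hΔ f hf γ => h1 Δ le_top hΔ f hf γ trivial
    exact Pool.Agent.Helper49K.typeAK hK hr ℓ₀ hr1 hpl h2 ℓ (typeA_of 𝔤 hA)
  · exact Pool.Agent.Helper49K.blocksK hr ℓ₀ hr1 hpl hb hR0 ℓ hR1

end Pool.Agent.Results.MP_3703a7_ag.TateAtOnePrime
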